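import Pool.Agent.L5helper22.QC.Main

/-!
# The center of the positive part of the quantum affine algebra of sl_2 consists of the scalars

`RingQuot (SRel K q)` is the algebra with two generators and the two cubic q-Serre relations. For
every field `K` and every nonzero `q` in `K` which is not a root of unity its center is the image of
`K`, and `K` embeds in it.

The proof is self-contained: an element of smallest positive height killed by the left skew
derivations is primitive for the braided coproduct, so the square of the braided antipode fixes it;
on the other hand its weight is zero, since q-commutators with the generators act locally
nilpotently on the kernels of the right skew derivations. Both together are impossible. A central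
homogeneous element is killed by the left skew derivations.
-/

set_option autoImplicit false

namespace Pool.Agent.Results.MP_cafee0_al.CenterTrivial

open Pool.Agent.L5helper22.QC

universe u

theorem result : ∀ (K : Type u) [Field K] (q : K), q ≠ 0 → (∀ n : ℕ, 0 < n → q ^ n ≠ 1) →
    Subalgebra.center K (RingQuot (SRel K q)) = ⊥ ∧
      Function.Injective (algebraMap K (RingQuot (SRel K q))) := by
  intro K _ q hq h1
  change Subalgebra.center K (U K q) = ⊥ ∧ Function.Injective (algebraMap K (U K q))
  constructor
  · refine le_antisymm (fun z hz => ?_) bot_le
    rw [Subalgebra.mem_center_iff] at hz
    obtain ⟨c, hc⟩ := central hq h1 z (fun i => hz (x K q i))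
    rw [hc]
    exact Subalgebra.algebraMap_mem _ c
  · have h0 : serre K q (0 : K) (0 : K) = 0 := by simp [serre]
    have hinv : Function.LeftInverse (lift (q := q) (fun _ => (0 : K)) h0 h0)
        (algebraMap K (U K q)) := by
      intro c
      rw [AlgHom.commutes]
      rfl
    exact hinv.injective

end Pool.Agent.Results.MP_cafee0_al.CenterTrivial
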